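import Pool.Agent.Y120.J.Defs3
import Pool.Agent.Y988.J.FD

/-!
# Points of the upper half-plane where `j` is real, negative and large
-/

set_option autoImplicit false

open Filter Topology UpperHalfPlane ModularForm EisensteinSeries
open Pool.Agent.TH21.MS

namespace Pool.Agent.Y664.J

open Pool.Agent.Y988.J

theorem Fq_near : ∃ ε : ℝ, 0 < ε ∧ ∀ a b : ℂ, ‖a‖ < ε → ‖b‖ < ε →
    ‖Fq a - Fq b - (a - b)‖ ≤ 1 / 2 * ‖a - b‖ := by
  have h := (Fq_strict.isLittleO).def (show (0 : ℝ) < 1 / 2 by norm_num)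
  rw [Metric.eventually_nhds_iff] at h
  obtain ⟨ε, hε, h1⟩ := h
  refine ⟨ε, hε, fun a b ha hb => ?_⟩
  have h2 := @h1 (a, b) (by
    rw [Prod.dist_eq]
    simp only [dist_zero_right]
    exact max_lt ha hb)
  refine le_trans (le_of_eq ?_) h2
  simp

/-- the real values -/
theorem Fq_real (x : ℝ) : ∃ r : ℝ, Fq (x : ℂ) = r := by
  refine ⟨x * ((720 * A3 ℝ x + 172800 * x * A3 ℝ x ^ 2 + 13824000 * x ^ 2 * A3 ℝ x ^ 3 +
    1008 * A5 ℝ x - 254016 * x * A5 ℝ x ^ 2) / (1728 * (1 + 240 * (x * A3 ℝ x)) ^ 3)), ?_⟩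
  unfold Fq
  rw [A3_ofReal, A5_ofReal]
  push_cast
  ring

theorem Fq_zero : Fq 0 = 0 := by
  unfold Fq
  rw [zero_mul]

/-- the values at small negative numbers -/
theorem Fq_surj {ε r : ℝ} (hr : 0 < r) (hrε : r < ε)
    (h : ∀ a b : ℂ, ‖a‖ < ε → ‖b‖ < ε → ‖Fq a - Fq b - (a - b)‖ ≤ 1 / 2 * ‖a - b‖)
    {s : ℝ} (hs : 0 < s) (hsr : s ≤ r / 2) : ∃ x : ℝ, 0 < x ∧ x ≤ r ∧ Fq (-x : ℂ) = -s := by
  obtain ⟨f, hf⟩ : ∃ f : ℝ → ℝ, f = fun x : ℝ => (Fq (-(x : ℂ))).re := ⟨_, rfl⟩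
  have hfv : ∀ x : ℝ, Fq (-x : ℂ) = f x := by
    intro x
    obtain ⟨v, hv⟩ := Fq_real (-x)
    push_cast at hv
    rw [hf]
    simp only
    rw [hv, Complex.ofReal_re]
  have hn : ∀ x : ℝ, x ∈ Set.Icc 0 r → ‖(-x : ℂ)‖ < ε := by
    intro x hx
    rw [norm_neg, Complex.norm_real, Real.norm_eq_abs, abs_of_nonneg hx.1]
    linarith [hx.2]
  have hc : ContinuousOn f (Set.Icc 0 r) := by
    refine LipschitzOnWith.continuousOn (K := 2) (LipschitzOnWith.of_dist_le_mul ?_)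
    intro x hx y hy
    have h1 := h (-x) (-y) (hn x hx) (hn y hy)
    rw [hfv, hfv] at h1
    have h2 : ((f x : ℂ) - f y - (-(x : ℂ) - -(y : ℂ))) = ((f x - f y + (x - y) : ℝ) : ℂ) := by
      push_cast
      ring
    have h3 : (-(x : ℂ) - -(y : ℂ)) = ((-(x - y) : ℝ) : ℂ) := by
      push_cast
      ring
    rw [h2, h3, Complex.norm_real, Complex.norm_real, Real.norm_eq_abs, Real.norm_eq_abs,
      abs_neg] at h1
    rw [Real.dist_eq, Real.dist_eq]
    have h4 : |f x - f y| ≤ |f x - f y + (x - y)| + |x - y| := by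
      calc |f x - f y| = |(f x - f y + (x - y)) - (x - y)| := by congr 1; ring
        _ ≤ _ := abs_sub _ _
    have h5 := abs_nonneg (x - y)
    push_cast
    linarith
  have h0 : f 0 = 0 := by
    have h1 := hfv 0
    rw [Complex.ofReal_zero, neg_zero, Fq_zero] at h1
    exact_mod_cast h1.symm
  have h1 : f r ≤ -s := by
    have h2 := h (-r) 0 (hn r ⟨hr.le, le_rfl⟩) (by rw [norm_zero]; linarith)
    rw [hfv, Fq_zero] at h2
    have h3 : ((f r : ℂ) - 0 - (-(r : ℂ) - 0)) = ((f r + r : ℝ) : ℂ) := by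
      push_cast
      ring
    have h4 : (-(r : ℂ) - 0) = ((-r : ℝ) : ℂ) := by
      push_cast
      ring
    rw [h3, h4, Complex.norm_real, Complex.norm_real, Real.norm_eq_abs, Real.norm_eq_abs,
      abs_neg, abs_of_pos hr] at h2
    linarith [le_abs_self (f r + r)]
  obtain ⟨x, hx, hx'⟩ := intermediate_value_Icc' hr.le hc (show -s ∈ Set.Icc (f r) (f 0) from
    ⟨h1, by rw [h0]; linarith⟩)
  refine ⟨x, ?_, hx.2, ?_⟩
  · rcases hx.1.lt_or_eq with h2 | h2
    · exact h2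
    · exfalso
      rw [← h2, h0] at hx'
      linarith
  · rw [hfv, hx']
    push_cast
    ring

open Pool.Agent.Y120.J in
/-- **the points where `j` is real, negative and large** -/
theorem t_fdm : T_FDM := by
  intro Y
  obtain ⟨ε, hε, hnear⟩ := Fq_near
  -- the height
  obtain ⟨Y1, hY1, hY1', hYε⟩ : ∃ Y1 : ℝ, Y ≤ Y1 ∧ 1 ≤ Y1 ∧ Real.exp (-(2 * Real.pi * Y1)) < ε := by
    have h1 := (xx_tendsto.eventually_lt_const hε).and
      ((eventually_ge_atTop Y).and (eventually_ge_atTop (1 : ℝ)))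
    obtain ⟨y, h2, h3, h4⟩ := h1.exists
    exact ⟨y, h3, h4, h2⟩
  have hpi := Real.pi_pos
  obtain ⟨B, hB⟩ := bound Y1
  obtain ⟨r, hr⟩ : ∃ r : ℝ, r = Real.exp (-(2 * Real.pi * Y1)) := ⟨_, rfl⟩
  have hr0 : 0 < r := by rw [hr]; exact Real.exp_pos _
  refine ⟨max (max B 0 + 1) (2 / r), fun z t ht hz => ?_⟩
  have ht1 := (le_max_left _ _).trans ht
  have ht2 := (le_max_right _ _).trans ht
  have hBt : B < t := by linarith [le_max_left B 0]
  have ht0 : 0 < t := by linarith [le_max_right B 0]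
  obtain ⟨γ, hγ⟩ := ModularGroup.exists_smul_mem_fd z
  obtain ⟨w, hw⟩ : ∃ w : ℍ, w = γ • z := ⟨_, rfl⟩
  rw [← hw] at hγ
  have hjw : jj w = -t := by rw [hw, jj_inv, hz]
  have him : 1 / 2 ≤ w.im := by
    have h1 := ModularGroup.three_le_four_mul_im_sq_of_mem_fd hγ
    have h2 := w.im_pos
    nlinarith
  have hre : |w.re| ≤ 1 / 2 := hγ.2
  have hwY : Y1 < w.im := by
    by_contra hcon
    push Not at hcon
    have h1 := hB (w : ℂ) hre him hcon
    rw [hjw, norm_neg, Complex.norm_real, Real.norm_eq_abs, abs_of_pos ht0] at h1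
    linarith
  -- the point with real part 1 / 2
  have hs : t⁻¹ ≤ r / 2 := by
    rw [inv_le_comm₀ ht0 (by positivity), inv_div]
    exact ht2
  obtain ⟨x, hx0, hxr, hx⟩ := Fq_surj hr0 (by rw [hr]; exact hYε) hnear (inv_pos.2 ht0) hs
  obtain ⟨y, hy⟩ : ∃ y : ℝ, y = -(Real.log x / (2 * Real.pi)) := ⟨_, rfl⟩
  have hyx : Real.exp (-(2 * Real.pi * y)) = x := by
    rw [hy, mul_neg, neg_neg, mul_div_cancel₀ _ (by positivity), Real.exp_log hx0]
  have hyY : Y1 ≤ y := by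
    have h1 : Real.exp (-(2 * Real.pi * y)) ≤ Real.exp (-(2 * Real.pi * Y1)) := by
      rw [hyx, ← hr]
      exact hxr
    have h2 := Real.exp_le_exp.1 h1
    have h3 : 2 * Real.pi * Y1 ≤ 2 * Real.pi * y := by linarith
    exact le_of_mul_le_mul_left h3 (by positivity)
  have hy0 : 0 < y := by linarith
  obtain ⟨u, hu⟩ : ∃ u : ℍ, u = ⟨⟨1 / 2, y⟩, hy0⟩ := ⟨_, rfl⟩
  have huc : (u : ℂ) = 1 / 2 + Complex.I * y := by
    rw [hu]
    apply Complex.ext <;> simp
  have hqu : qq (u : ℂ) = -x := by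
    unfold qq
    rw [huc, mul_add, Complex.exp_add]
    have h1 : 2 * (Real.pi : ℂ) * Complex.I * (1 / 2) = Real.pi * Complex.I := by ring
    have h2 : 2 * (Real.pi : ℂ) * Complex.I * (Complex.I * y) =
        ((-(2 * Real.pi * y) : ℝ) : ℂ) := by
      push_cast
      linear_combination (2 * (Real.pi : ℂ) * y) * Complex.I_mul_I
    rw [h1, h2, Complex.exp_pi_mul_I, ← Complex.ofReal_exp, hyx]
    ring
  have hju : jj u = -t := by
    have h1 := inv_jj (u : ℂ)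
    rw [hqu, hx] at h1
    rw [← inv_inv (jj u), h1]
    push_cast
    rw [inv_neg, inv_inv]
  have hq : qq (w : ℂ) = qq (u : ℂ) := by
    have h1 : ‖qq (w : ℂ)‖ < ε := by
      rw [norm_qq]
      refine lt_of_le_of_lt (Real.exp_le_exp.2 ?_) hYε
      have h2 : (w : ℂ).im = w.im := rfl
      rw [h2]
      nlinarith
    have h2 : ‖qq (u : ℂ)‖ < ε := by
      rw [hqu, norm_neg, Complex.norm_real, Real.norm_eq_abs, abs_of_pos hx0]
      rw [← hr] at hYε
      linarith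
    have h3 := hnear _ _ h1 h2
    rw [← inv_jj, ← inv_jj, hjw, hju, sub_self, zero_sub, norm_neg] at h3
    have h4 : ‖qq (w : ℂ) - qq (u : ℂ)‖ ≤ 0 := by linarith
    exact sub_eq_zero.1 (norm_le_zero_iff.1 h4)
  unfold qq at hq
  rw [Complex.exp_eq_exp_iff_exists_int] at hq
  obtain ⟨n, hn⟩ := hq
  have hwn : (w : ℂ) = (u : ℂ) + n := by
    have h2 : (2 * (Real.pi : ℂ) * Complex.I) ≠ 0 := by
      simp [Real.pi_ne_zero]
    apply mul_left_cancel₀ h2
    rw [hn]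
    ring
  refine ⟨γ⁻¹ * ModularGroup.T ^ n, u, ?_, ?_, ?_, hju⟩
  · have : u.im = y := by rw [hu]; rfl
    rw [this]
    linarith
  · rw [hu]; rfl
  · have h1 : w = ModularGroup.T ^ n • u := by
      apply UpperHalfPlane.ext
      rw [ModularGroup.coe_T_zpow_smul_eq]
      exact hwn
    rw [mul_smul, ← h1, hw, inv_smul_smul]

end Pool.Agent.Y664.J
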